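import Pool.Agent.Helper33.ZB.TriABC

/-!
# Project ZB: assembly of the main theorem from the theorem for one entry and the real place
-/

set_option autoImplicit false

namespace Pool.ZB.H26

open Finset Pool.RA Pool.ZB

/-- product of the primes of `n` -/
abbrev rd (n : ℕ) : ℕ := ∏ q ∈ n.primeFactors, q

theorem rd_pos (n : ℕ) : 0 < rd n := prod_pos fun q hq => (Nat.prime_of_mem_primeFactors hq).pos

/-- every prime of `n` is at most the radical -/
theorem sup_le_rd (n : ℕ) : n.primeFactors.sup id ≤ rd n := by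
  refine Finset.sup_le fun q hq => ?_
  exact Nat.le_of_dvd (rd_pos n) (dvd_prod_of_mem (fun q => q) hq)

theorem rd_mul {m n : ℕ} (h : m.Coprime n) : rd (m * n) = rd m * rd n := by
  unfold rd
  rw [h.primeFactors_mul, prod_union h.disjoint_primeFactors]

/-- the bracket of the theorem -/
noncomputable def br (F : ℕ) : ℝ :=
  max (((F.primeFactors.sup id : ℕ) : ℝ) ^ (2 / 3 : ℝ)) (((rd F : ℕ) : ℝ) ^ (1 / 2 : ℝ))

theorem one_le_br (F : ℕ) : 1 ≤ br F := by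
  refine le_max_of_le_right ?_
  exact Real.one_le_rpow (by exact_mod_cast rd_pos F) (by norm_num)

theorem br_le (F : ℕ) : br F ≤ ((rd F : ℕ) : ℝ) ^ (2 / 3 : ℝ) := by
  have h1 : (1 : ℝ) ≤ rd F := by exact_mod_cast rd_pos F
  refine max_le ?_ ?_
  · exact Real.rpow_le_rpow (Nat.cast_nonneg _) (by exact_mod_cast sup_le_rd F) (by norm_num)
  · exact Real.rpow_le_rpow_of_exponent_le h1 (by norm_num)

/-- the theorem for each entry -/
theorem main_of
    (hentry : ∀ ε : ℝ, 0 < ε → ∃ τ C : ℝ, 0 < τ ∧ τ < 1 ∧ 1 ≤ C ∧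
      ∀ (E1 E2 F N : ℕ) (L : ℝ), Tri E1 E2 F N L → (1 - τ) * L ≤ Real.log F →
        |Real.log E1 - Real.log E2| ≤ τ * L → 0 < L →
        L ≤ C * (N : ℝ) ^ ε * max (((F.primeFactors.sup id : ℕ) : ℝ) ^ (2 / 3 : ℝ))
          (((∏ q ∈ F.primeFactors, q : ℕ) : ℝ) ^ (1 / 2 : ℝ)))
    (hreal : ∀ ε τ : ℝ, 0 < ε → 0 < τ → τ < 1 → ∃ C : ℝ, 1 ≤ C ∧
      ∀ a b : ℕ, 0 < a → a ≤ b → a.Coprime b → (a : ℝ) ≤ ((a + b : ℕ) : ℝ) ^ (1 - τ) →
        Real.log ((a + b : ℕ) : ℝ) ≤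
          C * ((∏ q ∈ (a * b * (a + b)).primeFactors, q : ℕ) : ℝ) ^ ε)
    (ε : ℝ) (hε : 0 < ε) : ∃ C : ℝ, 1 ≤ C ∧
    ∀ a b : ℕ, 0 < a → 0 < b → a.Coprime b → ∀ F : ℕ, (F = a ∨ F = b ∨ F = a + b) →
      Real.log ((a + b : ℕ) : ℝ) ≤
        C * ((∏ q ∈ (a * b * (a + b)).primeFactors, q : ℕ) : ℝ) ^ ε *
          max (((F.primeFactors.sup id : ℕ) : ℝ) ^ (2 / 3 : ℝ))
            (((∏ q ∈ F.primeFactors, q : ℕ) : ℝ) ^ (1 / 2 : ℝ)) := by
  obtain ⟨τ, C1, hτ, hτ1, hC1, h1⟩ := hentry ε hε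
  obtain ⟨C2, hC2, h2⟩ := hreal ε τ hε hτ hτ1
  -- the case `a ≤ b` for all three entries
  have key : ∀ a b : ℕ, 0 < a → a ≤ b → a.Coprime b → ∀ F : ℕ, (F = a ∨ F = b ∨ F = a + b) →
      Real.log ((a + b : ℕ) : ℝ) ≤
        max C1 C2 * ((∏ q ∈ (a * b * (a + b)).primeFactors, q : ℕ) : ℝ) ^ ε * br F := by
    intro a b ha hab hcop F hF
    have hb : 0 < b := ha.trans_le hab
    set N : ℕ := ∏ q ∈ (a * b * (a + b)).primeFactors, q with hN
    have hN1 : (1 : ℝ) ≤ N := by exact_mod_cast rd_pos (a * b * (a + b))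
    have hNe : (0 : ℝ) < (N : ℝ) ^ ε := Real.rpow_pos_of_pos (by linarith) _
    have hbr := one_le_br F
    have hC : C1 ≤ max C1 C2 := le_max_left _ _
    have hC' : C2 ≤ max C1 C2 := le_max_right _ _
    rcases le_or_gt (a : ℝ) (((a + b : ℕ) : ℝ) ^ (1 - τ)) with hsm | hbig
    · refine (h2 a b ha hab hcop hsm).trans ?_
      calc C2 * (N : ℝ) ^ ε ≤ max C1 C2 * (N : ℝ) ^ ε :=
            mul_le_mul_of_nonneg_right hC' hNe.le
        _ = max C1 C2 * (N : ℝ) ^ ε * 1 := (mul_one _).symm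
        _ ≤ _ := mul_le_mul_of_nonneg_left hbr (by positivity)
    · -- all entries have logarithm at least `(1 - τ) L`
      set L : ℝ := Real.log ((a + b : ℕ) : ℝ) with hL
      have hc1 : (1 : ℝ) < ((a + b : ℕ) : ℝ) := by
        have : 1 < a + b := by omega
        exact_mod_cast this
      have hL0 : 0 < L := Real.log_pos hc1
      have ha1 : 1 < a := by
        have h3 : (1 : ℝ) ≤ ((a + b : ℕ) : ℝ) ^ (1 - τ) :=
          Real.one_le_rpow hc1.le (by linarith)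
        exact_mod_cast h3.trans_lt hbig
      have hc3 : 3 ≤ a + b := by omega
      have hla : (1 - τ) * L ≤ Real.log a := by
        rw [hL, ← Real.log_rpow (by linarith)]
        exact Real.log_le_log (Real.rpow_pos_of_pos (by linarith) _) hbig.le
      have hlab : Real.log a ≤ Real.log b :=
        Real.log_le_log (by exact_mod_cast ha) (by exact_mod_cast hab)
      have hlbc : Real.log b ≤ L :=
        Real.log_le_log (by exact_mod_cast hb) (by exact_mod_cast Nat.le_add_left b a)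
      have hfin : ∀ (E1 E2 : ℕ), Tri E1 E2 F N L → (1 - τ) * L ≤ Real.log F →
          |Real.log E1 - Real.log E2| ≤ τ * L →
          L ≤ max C1 C2 * (N : ℝ) ^ ε * br F := by
        intro E1 E2 hT hF1 hE
        refine (h1 E1 E2 F N L hT hF1 hE hL0).trans ?_
        have h5 : C1 * (N : ℝ) ^ ε ≤ max C1 C2 * (N : ℝ) ^ ε :=
          mul_le_mul_of_nonneg_right hC hNe.le
        exact mul_le_mul_of_nonneg_right h5 (zero_le_one.trans hbr)
      have hτL : 0 < τ * L := mul_pos hτ hL0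
      rcases hF with rfl | rfl | rfl
      · refine hfin _ _ (Pool.ZB.H33.tri_a F b ha hb hcop hc3) hla ?_
        rw [abs_le]
        constructor <;> linarith
      · refine hfin _ _ (Pool.ZB.H33.tri_b a F ha hb hcop hc3) (hla.trans hlab) ?_
        rw [abs_le]
        constructor <;> linarith
      · refine hfin _ _ (Pool.ZB.H33.tri_c a b ha hb hcop hc3) ?_ ?_
        · have : Real.log ((a + b : ℕ) : ℝ) = L := rfl
          rw [this]
          linarith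
        · rw [abs_le]
          constructor <;> linarith
  refine ⟨max C1 C2, hC1.trans (le_max_left _ _), ?_⟩
  intro a b ha hb hcop F hF
  rcases le_total a b with hab | hab
  · exact key a b ha hab hcop F hF
  · have h3 := key b a hb hab hcop.symm F (by
      rcases hF with h | h | h
      · exact Or.inr (Or.inl h)
      · exact Or.inl h
      · exact Or.inr (Or.inr (by rw [h, add_comm])))
    rw [add_comm b a, mul_comm b a] at h3
    exact h3

/-- the smallest radical -/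
theorem exists_small_rad (a b : ℕ) (hcop : a.Coprime b) :
    ∃ F : ℕ, (F = a ∨ F = b ∨ F = a + b) ∧
      ((rd F : ℕ) : ℝ) ≤ ((rd (a * b * (a + b)) : ℕ) : ℝ) ^ (1 / 3 : ℝ) := by
  have hac : a.Coprime (a + b) := by simpa using hcop
  have hbc : b.Coprime (a + b) := by simpa [Nat.coprime_comm] using hcop
  have hN : rd (a * b * (a + b)) = rd a * rd b * rd (a + b) := by
    rw [rd_mul (Nat.Coprime.mul_left hac hbc), rd_mul hcop]
  have hcube : ∀ F : ℕ, (rd F) ^ 3 ≤ rd (a * b * (a + b)) →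
      ((rd F : ℕ) : ℝ) ≤ ((rd (a * b * (a + b)) : ℕ) : ℝ) ^ (1 / 3 : ℝ) := by
    intro F hF
    have h1 : ((rd F : ℕ) : ℝ) = (((rd F : ℕ) : ℝ) ^ (3 : ℕ)) ^ (1 / 3 : ℝ) := by
      rw [← Real.rpow_natCast, ← Real.rpow_mul (Nat.cast_nonneg _)]
      norm_num
    rw [h1]
    refine Real.rpow_le_rpow (by positivity) ?_ (by norm_num)
    exact_mod_cast hF
  have h1 : ∀ x y z : ℕ, x ≤ y → x ≤ z → x ^ 3 ≤ x * y * z := by
    intro x y z hy hz
    calc x ^ 3 = x * x * x := by ring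
      _ ≤ x * y * z := Nat.mul_le_mul (Nat.mul_le_mul_left _ hy) hz
  rcases le_total (rd a) (rd b) with hab | hab
  · rcases le_total (rd a) (rd (a + b)) with hc | hc
    · exact ⟨a, Or.inl rfl, hcube a (by rw [hN]; exact h1 _ _ _ hab hc)⟩
    · refine ⟨a + b, Or.inr (Or.inr rfl), hcube _ ?_⟩
      rw [hN]
      have := h1 (rd (a + b)) (rd a) (rd b) hc (hc.trans hab)
      calc _ ≤ _ := this
        _ = _ := by ring
  · rcases le_total (rd b) (rd (a + b)) with hc | hc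
    · refine ⟨b, Or.inr (Or.inl rfl), hcube _ ?_⟩
      rw [hN]
      have := h1 (rd b) (rd a) (rd (a + b)) hab hc
      calc _ ≤ _ := this
        _ = _ := by ring
    · refine ⟨a + b, Or.inr (Or.inr rfl), hcube _ ?_⟩
      rw [hN]
      have := h1 (rd (a + b)) (rd b) (rd a) hc (hc.trans hab)
      calc _ ≤ _ := this
        _ = _ := by ring

/-- the corollary for the radical of each entry -/
theorem main23_of (h : ∀ ε : ℝ, 0 < ε → ∃ C : ℝ, 1 ≤ C ∧
      ∀ a b : ℕ, 0 < a → 0 < b → a.Coprime b → ∀ F : ℕ, (F = a ∨ F = b ∨ F = a + b) →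
        Real.log ((a + b : ℕ) : ℝ) ≤
          C * ((∏ q ∈ (a * b * (a + b)).primeFactors, q : ℕ) : ℝ) ^ ε *
            max (((F.primeFactors.sup id : ℕ) : ℝ) ^ (2 / 3 : ℝ))
              (((∏ q ∈ F.primeFactors, q : ℕ) : ℝ) ^ (1 / 2 : ℝ)))
    (ε : ℝ) (hε : 0 < ε) : ∃ C : ℝ, 1 ≤ C ∧
    ∀ a b : ℕ, 0 < a → 0 < b → a.Coprime b → ∀ F : ℕ, (F = a ∨ F = b ∨ F = a + b) →
      Real.log ((a + b : ℕ) : ℝ) ≤
        C * ((∏ q ∈ (a * b * (a + b)).primeFactors, q : ℕ) : ℝ) ^ ε *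
          ((∏ q ∈ F.primeFactors, q : ℕ) : ℝ) ^ (2 / 3 : ℝ) := by
  obtain ⟨C, hC, h1⟩ := h ε hε
  refine ⟨C, hC, fun a b ha hb hcop F hF => (h1 a b ha hb hcop F hF).trans ?_⟩
  exact mul_le_mul_of_nonneg_left (br_le F) (by positivity)

/-- the exponent `2/9` -/
theorem main29_of (h : ∀ ε : ℝ, 0 < ε → ∃ C : ℝ, 1 ≤ C ∧
      ∀ a b : ℕ, 0 < a → 0 < b → a.Coprime b → ∀ F : ℕ, (F = a ∨ F = b ∨ F = a + b) →
        Real.log ((a + b : ℕ) : ℝ) ≤
          C * ((∏ q ∈ (a * b * (a + b)).primeFactors, q : ℕ) : ℝ) ^ ε *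
            max (((F.primeFactors.sup id : ℕ) : ℝ) ^ (2 / 3 : ℝ))
              (((∏ q ∈ F.primeFactors, q : ℕ) : ℝ) ^ (1 / 2 : ℝ)))
    (ε : ℝ) (hε : 0 < ε) : ∃ C : ℝ, 1 ≤ C ∧
    ∀ a b : ℕ, 0 < a → 0 < b → a.Coprime b →
      Real.log ((a + b : ℕ) : ℝ) ≤
        C * ((∏ q ∈ (a * b * (a + b)).primeFactors, q : ℕ) : ℝ) ^ (2 / 9 + ε) := by
  obtain ⟨C, hC, h1⟩ := main23_of h ε hε
  refine ⟨C, hC, fun a b ha hb hcop => ?_⟩
  obtain ⟨F, hF, hr⟩ := exists_small_rad a b hcop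
  refine (h1 a b ha hb hcop F hF).trans ?_
  set N : ℕ := ∏ q ∈ (a * b * (a + b)).primeFactors, q with hN
  have hN1 : (1 : ℝ) ≤ N := by exact_mod_cast rd_pos (a * b * (a + b))
  have hN0 : (0 : ℝ) < N := by linarith
  have h2 : ((∏ q ∈ F.primeFactors, q : ℕ) : ℝ) ^ (2 / 3 : ℝ) ≤ (N : ℝ) ^ (2 / 9 : ℝ) := by
    refine (Real.rpow_le_rpow (Nat.cast_nonneg _) hr (by norm_num)).trans (le_of_eq ?_)
    rw [← Real.rpow_mul hN0.le]
    norm_num
  calc C * (N : ℝ) ^ ε * ((∏ q ∈ F.primeFactors, q : ℕ) : ℝ) ^ (2 / 3 : ℝ)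
      ≤ C * (N : ℝ) ^ ε * (N : ℝ) ^ (2 / 9 : ℝ) := mul_le_mul_of_nonneg_left h2 (by positivity)
    _ = C * (N : ℝ) ^ (2 / 9 + ε) := by
        rw [mul_assoc, ← Real.rpow_add hN0, add_comm ε]

end Pool.ZB.H26
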